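import Mathlib

/-!
# MP_5d374e_co: graphs that are both i-graphs and alpha-graphs

The class in question is exactly the class of `α`-graph realizable graphs, and it is strictly
smaller than the class of `i`-graph realizable graphs: the cube `Q₃` minus a vertex is the
`i`-graph of the spider `S(2,2,2)` but is not an `α`-graph.
-/

namespace Pool.Agent.Results.MP_5d374e_co.AlphaClass

open Finset

variable {V : Type*} [DecidableEq V]

/-- `S` is independent. -/
def Indep (G : SimpleGraph V) (S : Finset V) : Prop := ∀ u ∈ S, ∀ v ∈ S, ¬ G.Adj u v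

/-- `S` is an independent dominating set. -/
def IndDom (G : SimpleGraph V) (S : Finset V) : Prop :=
  Indep G S ∧ ∀ v, v ∉ S → ∃ u ∈ S, G.Adj v u

/-- `S` is an `i`-set: an independent dominating set of minimum size. -/
def IsISet (G : SimpleGraph V) (S : Finset V) : Prop :=
  IndDom G S ∧ ∀ T : Finset V, IndDom G T → S.card ≤ T.card

/-- `S` is an `α`-set: an independent set of maximum size. -/
def IsASet (G : SimpleGraph V) (S : Finset V) : Prop :=
  Indep G S ∧ ∀ T : Finset V, Indep G T → T.card ≤ S.card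

theorem slide_symm (G : SimpleGraph V) {X Y : Finset V} (hX : Indep G X)
    (h : ∃ u ∈ X, ∃ v ∈ Y, G.Adj u v ∧ Y = insert v (X.erase u)) :
    ∃ v ∈ Y, ∃ u ∈ X, G.Adj v u ∧ X = insert u (Y.erase v) := by
  obtain ⟨u, hu, v, hv, huv, hY⟩ := h
  refine ⟨v, hv, u, hu, huv.symm, ?_⟩
  have hvX : v ∉ X := fun h => hX u hu v h huv
  subst hY
  ext x
  by_cases hx : x = u
  · subst hx; simp [hu]
  · by_cases hxv : x = v
    · subst hxv; simp [hvX, hx]
    · simp [hx, hxv]

/-- The `i`-graph of `G`. -/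
def iGraph (G : SimpleGraph V) : SimpleGraph {S : Finset V // IsISet G S} where
  Adj X Y := X ≠ Y ∧ ∃ u ∈ X.1, ∃ v ∈ Y.1, G.Adj u v ∧ Y.1 = insert v (X.1.erase u)
  symm := ⟨fun X _ h => ⟨h.1.symm, slide_symm G X.2.1.1 h.2⟩⟩
  loopless := ⟨fun _ h => h.1 rfl⟩

/-- The `α`-graph of `G`. -/
def aGraph (G : SimpleGraph V) : SimpleGraph {S : Finset V // IsASet G S} where
  Adj X Y := X ≠ Y ∧ ∃ u ∈ X.1, ∃ v ∈ Y.1, G.Adj u v ∧ Y.1 = insert v (X.1.erase u)
  symm := ⟨fun X _ h => ⟨h.1.symm, slide_symm G X.2.1 h.2⟩⟩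
  loopless := ⟨fun _ h => h.1 rfl⟩

omit [DecidableEq V] in
theorem indep_subset {G : SimpleGraph V} {S T : Finset V} (h : Indep G T) (hST : S ⊆ T) :
    Indep G S := fun u hu v hv => h u (hST hu) v (hST hv)

theorem indep_insert {G : SimpleGraph V} {S : Finset V} {a : V} (h : Indep G S)
    (ha : ∀ v ∈ S, ¬ G.Adj a v) : Indep G (insert a S) := by
  intro u hu v hv huv
  rcases Finset.mem_insert.1 hu with hu' | hu'
  · rcases Finset.mem_insert.1 hv with hv' | hv'
    · rw [hu', hv'] at huv; exact G.irrefl huv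
    · rw [hu'] at huv; exact ha v hv' huv
  · rcases Finset.mem_insert.1 hv with hv' | hv'
    · rw [hv'] at huv; exact ha u hu' huv.symm
    · exact h u hu' v hv' huv

/-- Four-cycles in the `α`-graph. -/
theorem square {G : SimpleGraph V}
    {X A B Z : Finset V} (hX : IsASet G X) (hA : Indep G A) (hB : Indep G B) (hZ : Indep G Z)
    {a a' b b' : V} (ha : a ∈ X) (hb : b ∈ X) (haa : G.Adj a a') (hbb : G.Adj b b')
    (hAe : A = insert a' (X.erase a)) (hBe : B = insert b' (X.erase b)) (hAB : A ≠ B)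
    (hnAB : ¬ ∃ u ∈ A, ∃ v ∈ B, G.Adj u v ∧ B = insert v (A.erase u))
    (hAZ : ∃ u ∈ A, ∃ v ∈ Z, G.Adj u v ∧ Z = insert v (A.erase u))
    (hBZ : ∃ u ∈ B, ∃ v ∈ Z, G.Adj u v ∧ Z = insert v (B.erase u)) (hZX : Z ≠ X) :
    a ≠ b ∧ a' ≠ b' ∧ Z = insert b' (A.erase b) := by
  have hXi := hX.1
  have ha'X : a' ∉ X := fun h => hXi a ha a' h haa
  have hb'X : b' ∉ X := fun h => hXi b hb b' h hbb
  have hab : a ≠ b := by
    rintro rfl
    have hne : a' ≠ b' := by
      rintro rfl
      exact hAB (by rw [hAe, hBe])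
    by_cases hadj : G.Adj a' b'
    · apply hnAB
      refine ⟨a', by rw [hAe]; simp, b', by rw [hBe]; simp, hadj, ?_⟩
      rw [hAe, hBe, Finset.erase_insert]
      intro h; exact ha'X (Finset.mem_of_mem_erase h)
    · have hi : Indep G (insert a' B) := by
        apply indep_insert hB
        intro v hv
        rw [hBe] at hv
        rcases Finset.mem_insert.1 hv with rfl | hv
        · exact hadj
        · exact hA a' (by rw [hAe]; simp) v (by rw [hAe]; exact Finset.mem_insert_of_mem hv)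
      have h1 := hX.2 _ hi
      have h2 : a' ∉ B := by
        rw [hBe]
        intro h
        rcases Finset.mem_insert.1 h with h | h
        · exact hne h
        · exact ha'X (Finset.mem_of_mem_erase h)
      have h3 : b' ∉ X.erase a := fun h => hb'X (Finset.mem_of_mem_erase h)
      rw [Finset.card_insert_of_notMem h2, hBe, Finset.card_insert_of_notMem h3,
        Finset.card_erase_of_mem ha] at h1
      have : 0 < X.card := Finset.card_pos.2 ⟨a, ha⟩
      omega
  have hbA : b ∈ A := by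
    rw [hAe]; exact Finset.mem_insert_of_mem (Finset.mem_erase.2 ⟨hab.symm, hb⟩)
  have ha'A : a' ∈ A := by rw [hAe]; simp
  have haB : a ∈ B := by
    rw [hBe]; exact Finset.mem_insert_of_mem (Finset.mem_erase.2 ⟨hab, ha⟩)
  have hb'B : b' ∈ B := by rw [hBe]; simp
  have hne : a' ≠ b' := by
    rintro rfl
    exact hA b hbA a' ha'A hbb
  have hbB : b ∉ B := by
    rw [hBe]
    intro h
    rcases Finset.mem_insert.1 h with h | h
    · exact hbb.ne h
    · exact (Finset.mem_erase.1 h).1 rfl
  have haA : a ∉ A := by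
    rw [hAe]
    intro h
    rcases Finset.mem_insert.1 h with h | h
    · exact haa.ne h
    · exact (Finset.mem_erase.1 h).1 rfl
  have ha'B : a' ∉ B := by
    rw [hBe]
    intro h
    rcases Finset.mem_insert.1 h with h | h
    · exact hne h
    · exact ha'X (Finset.mem_of_mem_erase h)
  have hb'A : b' ∉ A := by
    rw [hAe]
    intro h
    rcases Finset.mem_insert.1 h with h | h
    · exact hne h.symm
    · exact hb'X (Finset.mem_of_mem_erase h)
  have hba' : b ≠ a' := by rintro rfl; exact ha'X hb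
  have hab' : a ≠ b' := by rintro rfl; exact hb'X ha
  obtain ⟨p, hp, q, hq, hpq, hZ1⟩ := hAZ
  obtain ⟨r, hr, s, hs, hrs, hZ2⟩ := hBZ
  have hp' : p = b ∨ p = a' := by
    by_contra hcon
    push Not at hcon
    have h1 : b ∈ Z := by
      rw [hZ1]; exact Finset.mem_insert_of_mem (Finset.mem_erase.2 ⟨hcon.1.symm, hbA⟩)
    have h2 : a' ∈ Z := by
      rw [hZ1]; exact Finset.mem_insert_of_mem (Finset.mem_erase.2 ⟨hcon.2.symm, ha'A⟩)
    rw [hZ2] at h1 h2
    rcases Finset.mem_insert.1 h1 with h1 | h1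
    · rcases Finset.mem_insert.1 h2 with h2 | h2
      · exact hba' (h1.trans h2.symm)
      · exact ha'B (Finset.mem_of_mem_erase h2)
    · exact hbB (Finset.mem_of_mem_erase h1)
  have hq' : q = a ∨ q = b' := by
    by_cases har : a = r
    · have h1 : b' ∈ Z := by
        rw [hZ2]
        exact Finset.mem_insert_of_mem (Finset.mem_erase.2 ⟨by rw [← har]; exact hab'.symm, hb'B⟩)
      rw [hZ1] at h1
      rcases Finset.mem_insert.1 h1 with h1 | h1
      · exact Or.inr h1.symm
      · exact absurd (Finset.mem_of_mem_erase h1) hb'A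
    · have h1 : a ∈ Z := by
        rw [hZ2]
        exact Finset.mem_insert_of_mem (Finset.mem_erase.2 ⟨har, haB⟩)
      rw [hZ1] at h1
      rcases Finset.mem_insert.1 h1 with h1 | h1
      · exact Or.inl h1.symm
      · exact absurd (Finset.mem_of_mem_erase h1) haA
  refine ⟨hab, hne, ?_⟩
  rcases hp' with rfl | rfl
  · rcases hq' with rfl | rfl
    · exact absurd hpq (hXi _ hb _ ha)
    · exact hZ1
  · rcases hq' with rfl | rfl
    · exfalso
      apply hZX
      rw [hZ1, hAe, Finset.erase_insert, Finset.insert_erase ha]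
      intro h; exact ha'X (Finset.mem_of_mem_erase h)
    · exfalso
      have h1 : b ∈ Z := by
        rw [hZ1]; exact Finset.mem_insert_of_mem (Finset.mem_erase.2 ⟨hba', hbA⟩)
      exact hZ b h1 q hq hbb

/-- The spider `S(2,2,2)`: centre `0`, inner vertices `1, 2, 3`, leaves `4, 5, 6`. -/
def spider : SimpleGraph (Fin 7) where
  Adj a b := (a, b) ∈ ([(0, 1), (0, 2), (0, 3), (1, 4), (2, 5), (3, 6),
    (1, 0), (2, 0), (3, 0), (4, 1), (5, 2), (6, 3)] : List (Fin 7 × Fin 7))
  symm := ⟨by decide⟩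
  loopless := ⟨by decide⟩

instance : DecidableRel spider.Adj := fun a b => by unfold spider; infer_instance

instance (S : Finset (Fin 7)) : Decidable (Indep spider S) := by
  unfold Indep; infer_instance

instance (S : Finset (Fin 7)) : Decidable (IndDom spider S) := by
  unfold IndDom; infer_instance

theorem three_le : ∀ T : Finset (Fin 7), IndDom spider T → 3 ≤ T.card := by
  decide +kernel

theorem isISet_of {S : Finset (Fin 7)} (h : IndDom spider S) (hc : S.card = 3) :
    IsISet spider S := ⟨h, fun T hT => hc.le.trans (three_le T hT)⟩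

theorem no_common : ∀ S : Finset (Fin 7), IndDom spider S →
    ¬ ((∃ u ∈ ({4, 5, 3} : Finset (Fin 7)), ∃ v ∈ S, spider.Adj u v ∧
          S = insert v (({4, 5, 3} : Finset (Fin 7)).erase u)) ∧
      (∃ u ∈ ({4, 2, 6} : Finset (Fin 7)), ∃ v ∈ S, spider.Adj u v ∧
          S = insert v (({4, 2, 6} : Finset (Fin 7)).erase u)) ∧
      (∃ u ∈ ({1, 5, 6} : Finset (Fin 7)), ∃ v ∈ S, spider.Adj u v ∧
          S = insert v (({1, 5, 6} : Finset (Fin 7)).erase u))) := by
  decide +kernel

/-- The seven `i`-sets of the spider that we use. -/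
def sX : {S : Finset (Fin 7) // IsISet spider S} :=
  ⟨{1, 2, 3}, isISet_of (by decide +kernel) (by decide)⟩
def s1 : {S : Finset (Fin 7) // IsISet spider S} :=
  ⟨{4, 2, 3}, isISet_of (by decide +kernel) (by decide)⟩
def s2 : {S : Finset (Fin 7) // IsISet spider S} :=
  ⟨{1, 5, 3}, isISet_of (by decide +kernel) (by decide)⟩
def s3 : {S : Finset (Fin 7) // IsISet spider S} :=
  ⟨{1, 2, 6}, isISet_of (by decide +kernel) (by decide)⟩
def s12 : {S : Finset (Fin 7) // IsISet spider S} :=
  ⟨{4, 5, 3}, isISet_of (by decide +kernel) (by decide)⟩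
def s13 : {S : Finset (Fin 7) // IsISet spider S} :=
  ⟨{4, 2, 6}, isISet_of (by decide +kernel) (by decide)⟩
def s23 : {S : Finset (Fin 7) // IsISet spider S} :=
  ⟨{1, 5, 6}, isISet_of (by decide +kernel) (by decide)⟩

theorem adj_of {S T : {S : Finset (Fin 7) // IsISet spider S}} (h : S.1 ≠ T.1)
    (h2 : ∃ u ∈ S.1, ∃ v ∈ T.1, spider.Adj u v ∧ T.1 = insert v (S.1.erase u)) :
    (iGraph spider).Adj S T := ⟨fun e => h (congrArg _ e), h2⟩

theorem nadj_of {S T : {S : Finset (Fin 7) // IsISet spider S}}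
    (h2 : ¬ ∃ u ∈ S.1, ∃ v ∈ T.1, spider.Adj u v ∧ T.1 = insert v (S.1.erase u)) :
    ¬ (iGraph spider).Adj S T := fun h => h2 h.2

theorem insert_card_eq {Z : Finset V} {x y : V} (hx : x ∈ Z) (hy : y ∉ Z) :
    (insert y (Z.erase x)).card = Z.card := by
  rw [Finset.card_insert_of_notMem (fun h => hy (Finset.mem_of_mem_erase h)),
    Finset.card_erase_of_mem hx]
  have : 0 < Z.card := Finset.card_pos.2 ⟨x, hx⟩
  omega

/-- The core of the argument: no graph has the `i`-graph of the spider as its `α`-graph. -/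
theorem no_iso {G : SimpleGraph V} (φ : aGraph G ≃g iGraph spider) : False := by
  have tr : ∀ {S T}, (iGraph spider).Adj S T → (aGraph G).Adj (φ.symm S) (φ.symm T) :=
    fun {S T} h => φ.symm.map_adj_iff.2 h
  have ntr : ∀ {S T}, ¬ (iGraph spider).Adj S T → ¬ (aGraph G).Adj (φ.symm S) (φ.symm T) :=
    fun {S T} h h' => h (φ.symm.map_adj_iff.1 h')
  have inj : ∀ {S T : {S : Finset (Fin 7) // IsISet spider S}}, S.1 ≠ T.1 →
      (φ.symm S).1 ≠ (φ.symm T).1 :=
    fun {S T} h e => h (congrArg _ (φ.symm.injective (Subtype.ext e)))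
  -- the four-cycles
  obtain ⟨x1, hx1, y1, hy1, hxy1, e1⟩ := (tr (S := sX) (T := s1) (adj_of (by decide) (by decide))).2
  obtain ⟨x2, hx2, y2, hy2, hxy2, e2⟩ := (tr (S := sX) (T := s2) (adj_of (by decide) (by decide))).2
  obtain ⟨x3, hx3, y3, hy3, hxy3, e3⟩ := (tr (S := sX) (T := s3) (adj_of (by decide) (by decide))).2
  have nadj : ∀ {S T : {S : Finset (Fin 7) // IsISet spider S}}, S.1 ≠ T.1 →
      ¬ (iGraph spider).Adj S T →
      ¬ ∃ u ∈ (φ.symm S).1, ∃ v ∈ (φ.symm T).1, G.Adj u v ∧
        (φ.symm T).1 = insert v ((φ.symm S).1.erase u) :=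
    fun {S T} h1 h2 h3 => ntr h2 ⟨fun e => inj h1 (congrArg _ e), h3⟩
  obtain ⟨n12, m12, z12⟩ := square (φ.symm sX).2 (φ.symm s1).2.1 (φ.symm s2).2.1
    (φ.symm s12).2.1 hx1 hx2 hxy1 hxy2 e1 e2 (inj (by decide))
    (nadj (by decide) (nadj_of (by decide)))
    (tr (S := s1) (T := s12) (adj_of (by decide) (by decide))).2
    (tr (S := s2) (T := s12) (adj_of (by decide) (by decide))).2 (inj (by decide))
  obtain ⟨n13, m13, z13⟩ := square (φ.symm sX).2 (φ.symm s1).2.1 (φ.symm s3).2.1
    (φ.symm s13).2.1 hx1 hx3 hxy1 hxy3 e1 e3 (inj (by decide))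
    (nadj (by decide) (nadj_of (by decide)))
    (tr (S := s1) (T := s13) (adj_of (by decide) (by decide))).2
    (tr (S := s3) (T := s13) (adj_of (by decide) (by decide))).2 (inj (by decide))
  obtain ⟨n23, m23, z23⟩ := square (φ.symm sX).2 (φ.symm s2).2.1 (φ.symm s3).2.1
    (φ.symm s23).2.1 hx2 hx3 hxy2 hxy3 e2 e3 (inj (by decide))
    (nadj (by decide) (nadj_of (by decide)))
    (tr (S := s2) (T := s23) (adj_of (by decide) (by decide))).2
    (tr (S := s3) (T := s23) (adj_of (by decide) (by decide))).2 (inj (by decide))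
  set X := (φ.symm sX).1 with hX
  set A := (φ.symm s1).1 with hA
  set B := (φ.symm s2).1 with hB
  set C := (φ.symm s3).1 with hC
  set Z12 := (φ.symm s12).1 with hZ12
  set Z13 := (φ.symm s13).1 with hZ13
  set Z23 := (φ.symm s23).1 with hZ23
  have iX : Indep G X := (φ.symm sX).2.1
  have i12 : Indep G Z12 := (φ.symm s12).2.1
  have i13 : Indep G Z13 := (φ.symm s13).2.1
  have i23 : Indep G Z23 := (φ.symm s23).2.1
  have y1X : y1 ∉ X := fun h => iX x1 hx1 y1 h hxy1
  have y2X : y2 ∉ X := fun h => iX x2 hx2 y2 h hxy2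
  have y3X : y3 ∉ X := fun h => iX x3 hx3 y3 h hxy3
  have memX : ∀ v ∈ X, ∀ i, (i = y1 ∨ i = y2 ∨ i = y3) → v ≠ i := by
    rintro v hv i (rfl | rfl | rfl) rfl
    · exact y1X hv
    · exact y2X hv
    · exact y3X hv
  -- the set `W`
  let W := insert y3 (Z12.erase x3)
  have hx3Z : x3 ∈ Z12 := by
    rw [z12, e1]
    simp only [Finset.mem_insert, Finset.mem_erase]
    exact Or.inr ⟨n23.symm, Or.inr ⟨n13.symm, hx3⟩⟩
  have hy3Z : y3 ∉ Z12 := fun h => i12 x3 hx3Z y3 h hxy3
  have y1Z13 : y1 ∈ Z13 := by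
    rw [z13, e1]
    simp only [Finset.mem_insert, Finset.mem_erase]
    exact Or.inr ⟨(memX x3 hx3 y1 (by simp)).symm, Or.inl trivial⟩
  have y3Z13 : y3 ∈ Z13 := by rw [z13]; simp
  have y2Z23 : y2 ∈ Z23 := by
    rw [z23, e2]
    simp only [Finset.mem_insert, Finset.mem_erase]
    exact Or.inr ⟨(memX x3 hx3 y2 (by simp)).symm, Or.inl trivial⟩
  have y3Z23 : y3 ∈ Z23 := by rw [z23]; simp
  have iW : Indep G W := by
    apply indep_insert (indep_subset i12 (Finset.erase_subset _ _))
    intro v hv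
    obtain ⟨hv3, hv⟩ := Finset.mem_erase.1 hv
    rw [z12, e1] at hv
    simp only [Finset.mem_insert, Finset.mem_erase] at hv
    rcases hv with rfl | ⟨hv2, rfl | ⟨hv1, hv⟩⟩
    · exact i23 _ y3Z23 _ y2Z23
    · exact i13 _ y3Z13 _ y1Z13
    · apply (φ.symm s3).2.1 y3 hy3
      show v ∈ C
      rw [e3]
      exact Finset.mem_insert_of_mem (Finset.mem_erase.2 ⟨hv3, hv⟩)
  have cW : W.card = Z12.card := insert_card_eq hx3Z hy3Z
  have isW : IsASet G W := ⟨iW, fun T hT => by rw [cW]; exact (φ.symm s12).2.2 T hT⟩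
  -- W as a vertex
  have w12 : ∃ u ∈ Z12, ∃ v ∈ W, G.Adj u v ∧ W = insert v (Z12.erase u) :=
    ⟨x3, hx3Z, y3, by simp [W], hxy3, rfl⟩
  have w13 : ∃ u ∈ Z13, ∃ v ∈ W, G.Adj u v ∧ W = insert v (Z13.erase u) := by
    have hx2Z : x2 ∈ Z13 := by
      rw [z13, e1]
      simp only [Finset.mem_insert, Finset.mem_erase]
      exact Or.inr ⟨n23, Or.inr ⟨n12.symm, hx2⟩⟩
    refine ⟨x2, hx2Z, y2, ?_, hxy2, ?_⟩
    · simp only [W, z12, Finset.mem_insert, Finset.mem_erase]
      exact Or.inr ⟨(memX x3 hx3 y2 (by simp)).symm, Or.inl trivial⟩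
    · simp only [W, z12, z13, e1]
      ext v
      simp only [Finset.mem_insert, Finset.mem_erase]
      have k1 := memX x1 hx1
      have k2 := memX x2 hx2
      have k3 := memX x3 hx3
      by_cases v1 : v = y1
      · subst v1; simp [(k2 v (by simp)).symm, (k3 v (by simp)).symm]
      · by_cases v2 : v = y2
        · subst v2; simp [(k3 v (by simp)).symm]
        · by_cases v3 : v = y3
          · subst v3; simp [(k2 v (by simp)).symm]
          · simp only [v1, v2, v3, false_or]; tauto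
  have w23 : ∃ u ∈ Z23, ∃ v ∈ W, G.Adj u v ∧ W = insert v (Z23.erase u) := by
    have hx1Z : x1 ∈ Z23 := by
      rw [z23, e2]
      simp only [Finset.mem_insert, Finset.mem_erase]
      exact Or.inr ⟨n13, Or.inr ⟨n12, hx1⟩⟩
    refine ⟨x1, hx1Z, y1, ?_, hxy1, ?_⟩
    · simp only [W, z12, e1, Finset.mem_insert, Finset.mem_erase]
      exact Or.inr ⟨(memX x3 hx3 y1 (by simp)).symm,
        Or.inr ⟨(memX x2 hx2 y1 (by simp)).symm, Or.inl trivial⟩⟩
    · simp only [W, z12, z23, e1, e2]
      ext v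
      simp only [Finset.mem_insert, Finset.mem_erase]
      have k1 := memX x1 hx1
      have k2 := memX x2 hx2
      have k3 := memX x3 hx3
      by_cases v1 : v = y1
      · subst v1; simp [(k2 v (by simp)).symm, (k3 v (by simp)).symm]
      · by_cases v2 : v = y2
        · subst v2; simp [(k3 v (by simp)).symm, (k1 v (by simp)).symm]
        · by_cases v3 : v = y3
          · subst v3; simp [(k1 v (by simp)).symm]
          · simp only [v1, v2, v3, false_or]; tauto
  have ne12 : Z12 ≠ W := by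
    intro h; rw [h] at hy3Z; exact hy3Z (by simp [W])
  have ne_of : ∀ {Z : Finset V} (hZ : Indep G Z),
      (∃ u ∈ Z, ∃ v ∈ W, G.Adj u v ∧ W = insert v (Z.erase u)) → Z ≠ W := by
    rintro Z hZ ⟨u, hu, v, hv, huv, h⟩ rfl
    exact hZ u hu v hv huv
  have a12 : (aGraph G).Adj (φ.symm s12) ⟨W, isW⟩ :=
    ⟨fun e => ne_of i12 w12 (congrArg Subtype.val e), w12⟩
  have a13 : (aGraph G).Adj (φ.symm s13) ⟨W, isW⟩ :=
    ⟨fun e => ne_of i13 w13 (congrArg Subtype.val e), w13⟩
  have a23 : (aGraph G).Adj (φ.symm s23) ⟨W, isW⟩ :=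
    ⟨fun e => ne_of i23 w23 (congrArg Subtype.val e), w23⟩
  have b12 : (iGraph spider).Adj s12 (φ ⟨W, isW⟩) := by
    have := φ.map_adj_iff.2 a12
    simpa using this
  have b13 : (iGraph spider).Adj s13 (φ ⟨W, isW⟩) := by
    have := φ.map_adj_iff.2 a13
    simpa using this
  have b23 : (iGraph spider).Adj s23 (φ ⟨W, isW⟩) := by
    have := φ.map_adj_iff.2 a23
    simpa using this
  exact no_common (φ ⟨W, isW⟩).1 (φ ⟨W, isW⟩).2.1 ⟨b12.2, b13.2, b23.2⟩

/-- The seed construction: for every maximal independent set `M` of `G` with fewer than `a`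
vertices, `a + 1` new vertices adjacent exactly to the vertices of `G` outside `M`. -/
def seed (G : SimpleGraph V) (a : ℕ) :
    SimpleGraph (V ⊕ ({M : Finset V // IndDom G M ∧ M.card < a} × Fin (a + 1))) where
  Adj x y := match x, y with
    | Sum.inl u, Sum.inl v => G.Adj u v
    | Sum.inl u, Sum.inr (M, _) => u ∉ M.1
    | Sum.inr (M, _), Sum.inl u => u ∉ M.1
    | Sum.inr _, Sum.inr _ => False
  symm := ⟨by
    rintro (u | ⟨M, i⟩) (v | ⟨N, j⟩) h
    · exact SimpleGraph.Adj.symm h
    · exact h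
    · exact h
    · exact h⟩
  loopless := ⟨by
    rintro (u | ⟨M, i⟩) h
    · exact G.irrefl h
    · exact h⟩

theorem seed_dichotomy {G : SimpleGraph V} {a : ℕ} (ha : ∀ T : Finset V, Indep G T → T.card ≤ a)
    {T : Finset (V ⊕ ({M : Finset V // IndDom G M ∧ M.card < a} × Fin (a + 1)))}
    (hT : IndDom (seed G a) T) :
    a < T.card ∨ ∃ S : Finset V, (IsASet G S ∧ S.card = a) ∧ T = S.map Function.Embedding.inl := by
  classical
  by_cases h : ∃ M j, Sum.inr (M, j) ∈ T
  · left
    obtain ⟨M, j, hMj⟩ := h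
    have hall : ∀ j', Sum.inr (M, j') ∈ T := by
      intro j'
      by_contra hcon
      obtain ⟨u, hu, huv⟩ := hT.2 _ hcon
      rcases u with v | ⟨N, i⟩
      · exact hT.1 _ hMj _ hu huv
      · exact huv
    have : (Finset.univ : Finset (Fin (a + 1))).card ≤ T.card :=
      Finset.card_le_card_of_injOn (fun j' => Sum.inr (M, j')) (fun j' _ => hall j')
        (fun i _ j _ h => by simpa using h)
    simp at this
    omega
  · right
    push Not at h
    let S : Finset V := T.preimage Sum.inl (Sum.inl_injective.injOn)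
    have hTS : T = S.map Function.Embedding.inl := by
      ext x
      rcases x with v | ⟨M, j⟩
      · simp [S]
      · simp [h M j]
    have hS : Indep G S := by
      intro u hu v hv huv
      exact hT.1 (Sum.inl u) (by simpa [S] using hu) (Sum.inl v) (by simpa [S] using hv) huv
    have hSd : IndDom G S := by
      refine ⟨hS, fun v hv => ?_⟩
      obtain ⟨u, hu, huv⟩ := hT.2 (Sum.inl v) (by simpa [S] using hv)
      rcases u with w | ⟨N, i⟩
      · exact ⟨w, by simpa [S] using hu, huv⟩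
      · exact absurd hu (h N i)
    have hSc : a ≤ S.card := by
      by_contra hcon
      push Not at hcon
      obtain ⟨u, hu, huv⟩ := hT.2 (Sum.inr (⟨S, hSd, hcon⟩, 0)) (h _ _)
      rcases u with w | ⟨N, i⟩
      · exact huv (by simpa [S] using hu)
      · exact huv
    have hSa : S.card = a := le_antisymm (ha S hS) hSc
    exact ⟨S, ⟨⟨hS, fun U hU => by rw [hSa]; exact ha U hU⟩, hSa⟩, hTS⟩

theorem seed_indDom {G : SimpleGraph V} {a : ℕ} (ha : ∀ T : Finset V, Indep G T → T.card ≤ a)
    {S : Finset V} (hS : Indep G S) (hSa : S.card = a) :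
    IndDom (seed G a) (S.map Function.Embedding.inl) := by
  constructor
  · intro u hu v hv huv
    rw [Finset.mem_map] at hu hv
    obtain ⟨u', hu', rfl⟩ := hu
    obtain ⟨v', hv', rfl⟩ := hv
    exact hS u' hu' v' hv' huv
  · rintro (v | ⟨M, j⟩) hv
    · have hvS : v ∉ S := by simpa using hv
      by_contra hcon
      push Not at hcon
      have hi : Indep G (insert v S) := indep_insert hS (fun w hw hvw =>
        hcon (Sum.inl w) (by simpa using hw) hvw)
      have := ha _ hi
      rw [Finset.card_insert_of_notMem hvS] at this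
      omega
    · have : ∃ v ∈ S, v ∉ M.1 := by
        by_contra hcon
        push Not at hcon
        have := Finset.card_le_card (s := S) (t := M.1) hcon
        have := M.2.2
        omega
      obtain ⟨v, hv1, hv2⟩ := this
      exact ⟨Sum.inl v, by simpa using hv1, hv2⟩

theorem seed_isISet {G : SimpleGraph V} {a : ℕ} (ha : ∀ T : Finset V, Indep G T → T.card ≤ a)
    {S : Finset V} (hS : Indep G S) (hSa : S.card = a) :
    IsISet (seed G a) (S.map Function.Embedding.inl) := by
  refine ⟨seed_indDom ha hS hSa, fun T hT => ?_⟩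
  rw [Finset.card_map, hSa]
  rcases seed_dichotomy ha hT with h | ⟨S', ⟨-, h⟩, rfl⟩
  · exact h.le
  · rw [Finset.card_map, h]

/-- The `α`-graph of `G` is the `i`-graph of the seed. -/
theorem seed_iso {G : SimpleGraph V} {a : ℕ} (S₀ : Finset V) (hS₀ : IsASet G S₀)
    (h₀ : S₀.card = a) : Nonempty (aGraph G ≃g iGraph (seed G a)) := by
  classical
  have ha : ∀ T : Finset V, Indep G T → T.card ≤ a := fun T hT => by rw [← h₀]; exact hS₀.2 T hT
  have hc : ∀ S : Finset V, IsASet G S → S.card = a := fun S hS =>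
    le_antisymm (ha S hS.1) (by rw [← h₀]; exact hS.2 S₀ hS₀.1)
  let f : {S : Finset V // IsASet G S} → {T // IsISet (seed G a) T} :=
    fun S => ⟨S.1.map Function.Embedding.inl, seed_isISet ha S.2.1 (hc S.1 S.2)⟩
  have hf : Function.Bijective f := by
    constructor
    · intro S T h
      apply Subtype.ext
      exact Finset.map_injective _ (congrArg Subtype.val h)
    · rintro ⟨T, hT⟩
      rcases seed_dichotomy ha hT.1 with h | ⟨S, ⟨hS, -⟩, rfl⟩
      · exfalso
        have := hT.2 _ (seed_indDom ha hS₀.1 h₀)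
        rw [Finset.card_map] at this
        omega
      · exact ⟨⟨S, hS⟩, rfl⟩
  refine ⟨⟨Equiv.ofBijective f hf, ?_⟩⟩
  intro X Y
  simp only [Equiv.ofBijective_apply]
  constructor
  · rintro ⟨hne, u, hu, v, hv, huv, h⟩
    refine ⟨fun e => hne (by rw [e]), ?_⟩
    obtain ⟨u', hu', rfl⟩ := Finset.mem_map.1 hu
    obtain ⟨v', hv', rfl⟩ := Finset.mem_map.1 hv
    refine ⟨u', hu', v', hv', huv, ?_⟩
    have h' : Y.1.map Function.Embedding.inl =
        (insert v' (X.1.erase u')).map (Function.Embedding.inl :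
          V ↪ V ⊕ ({M : Finset V // IndDom G M ∧ M.card < a} × Fin (a + 1))) := by
      rw [Finset.map_insert, Finset.map_erase]
      exact h
    exact Finset.map_injective _ h'
  · rintro ⟨hne, u, hu, v, hv, huv, h⟩
    refine ⟨fun e => hne (hf.1 e), Sum.inl u, Finset.mem_map.2 ⟨u, hu, rfl⟩, Sum.inl v,
      Finset.mem_map.2 ⟨v, hv, rfl⟩, huv, ?_⟩
    show Y.1.map Function.Embedding.inl = _
    rw [h, Finset.map_insert, Finset.map_erase]
    rfl

/-- `H` is `i`-graph realizable. -/
def IRealizable {W : Type} (H : SimpleGraph W) : Prop :=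
  ∃ (V : Type) (_ : Fintype V) (_ : DecidableEq V) (G : SimpleGraph V), Nonempty (iGraph G ≃g H)

/-- `H` is `α`-graph realizable. -/
def ARealizable {W : Type} (H : SimpleGraph W) : Prop :=
  ∃ (V : Type) (_ : Fintype V) (_ : DecidableEq V) (G : SimpleGraph V), Nonempty (aGraph G ≃g H)

theorem exists_aSet [Fintype V] (G : SimpleGraph V) : ∃ S, IsASet G S := by
  classical
  have hne : (Finset.univ.filter (fun S : Finset V => Indep G S)).Nonempty :=
    ⟨∅, by simp [Indep]⟩
  obtain ⟨S, hS, hmax⟩ := Finset.exists_max_image _ Finset.card hne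
  simp only [Finset.mem_filter, Finset.mem_univ, true_and] at hS hmax
  exact ⟨S, hS, hmax⟩

/-- **The class of Q1 of MP_5d374e_co.**  A graph is both `i`-graph realizable and `α`-graph
realizable if and only if it is `α`-graph realizable, and there is an `i`-graph realizable graph
outside this class. -/
theorem result :
    (∀ (W : Type) (H : SimpleGraph W), (IRealizable H ∧ ARealizable H) ↔ ARealizable H) ∧
    (∃ (W : Type) (_ : Fintype W) (H : SimpleGraph W), IRealizable H ∧ ¬ ARealizable H) := by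
  classical
  constructor
  · intro W H
    refine ⟨fun h => h.2, fun h => ⟨?_, h⟩⟩
    obtain ⟨V, _, _, G, ⟨φ⟩⟩ := h
    obtain ⟨S, hS⟩ := exists_aSet G
    obtain ⟨ψ⟩ := seed_iso (a := S.card) S hS rfl
    exact ⟨_, inferInstance, inferInstance, seed G S.card, ⟨ψ.symm.trans φ⟩⟩
  · refine ⟨{S : Finset (Fin 7) // IsISet spider S}, inferInstance, iGraph spider,
      ⟨Fin 7, inferInstance, inferInstance, spider, ⟨SimpleGraph.Iso.refl⟩⟩, ?_⟩
    rintro ⟨V, _, _, G, ⟨φ⟩⟩
    exact no_iso φ

end Pool.Agent.Results.MP_5d374e_co.AlphaClass
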